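import Pool.Agent.Helper34.OneLoop.Final
import Pool.Agent.Helper34.OneLoop.DEV

/-!
# The 1-loop conjecture for one-cusped hyperbolic 3-manifolds (`MP_2c5f89_gt`, Q1)

A one-cusped hyperbolic 3-manifold `M` with a geometric ideal triangulation is given by the
combinatorial triangulation `T` (`Triang`, `OneCusp`, `Cells`: one cusp, `N` tetrahedra and `N` edges) and
the shapes `z` of the tetrahedra, with positive imaginary parts, solving the gluing and completeness
equations (`IsGeometric`).  `θ` is a closed peripheral curve in normal position, homotopically nontrivial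
in the cusp torus (`Essential`; it need not be simple).  `f` is any integral triple `(f, f', f'')` with
`G f + G' f' + G'' f'' = 2` and `f + f' + f'' = 1`, for example a strong combinatorial flattening; `r` is
the row of the gluing matrices replaced by the completeness coefficients along `θ`.

The theorem: the complete hyperbolic structure can be developed (`Develop`), and for every developing
data the adjoint torsion with respect to `θ` (`IsATor`, computed in the spine dual to `T`, with bases
`P ⊗ θ` of `H₁` and `P ⊗ [∂M]` of `H₂`) is defined, and equals, up to sign, the 1-loop invariant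
`oneLoop = det (Ĝ ζ + Ĝ' ζ' + Ĝ'' ζ'') / (2 ζ^f ζ'^f' ζ''^f'')`.
-/

namespace Pool.Agent.Results.MP_2c5f89_gt.OneLoopConjecture

open Pool.Agent.Helper34.OneLoop

theorem result {N : ℕ} (T : Triang N) (hT : T.OneCusp) (K : Cells T) (z : Fin N → ℂ)
    (hz : IsGeometric K z) (θ : Curve T) (hθ : θ.Essential K) (r : Fin N)
    (f : Fin 3 → Fin N → ℤ) (hf : IsFlattening K f) :
    Nonempty (Develop T z) ∧ ∀ D : Develop T z,
      (∃ τ, IsATor K D θ τ) ∧
        ∀ τ, IsATor K D θ τ → τ = oneLoop K z θ r f ∨ τ = -oneLoop K z θ r f :=
  ⟨exists_develop K hT hz, fun D =>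
    ⟨ator_exists K D hT hz.im_pos θ hθ r, fun τ hτ => ator_value K D hT hz.im_pos θ r f hf τ hτ⟩⟩

end Pool.Agent.Results.MP_2c5f89_gt.OneLoopConjecture
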